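import Mathlib
import Pool.Agent.Z705.Defs

/-!
# The assembly of the diagonal identity for numbers `m`
-/

set_option autoImplicit false

namespace Pool.Agent.Y220.ZD

open Finset
open Pool.Agent.Z700 (Fp un)
open Pool.Agent.Z701 (wt)
open Pool.Agent.Z705

theorem diag_be {m : ℕ} {β : ZMod 7} (h : Bt m β) : -(β * β) = 3 * (m : ZMod 7) := by
  unfold Bt at h
  rw [← sq, h, neg_neg]

theorem diag_iff {m : ℕ} {β : ZMod 7} (h : Bt m β) (b : ℤ) :
    (b : ZMod 7) = -(β * β) ↔ (7 : ℤ) ∣ 3 * (m : ℤ) - b := by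
  rw [diag_be h]
  have h := ZMod.intCast_eq_intCast_iff_dvd_sub b (3 * (m : ℤ)) 7
  push_cast at h
  exact h

theorem diag_RM {m : ℕ} {β : ZMod 7} (hm : m % 8 = 1) (hB : Bt m β) :
    ∑ T ∈ (range (3 * m)).filter (fun T => Odd T ∧ 7 ∣ T),
      wt m m (3 * (m : ℤ) - 2 * T) * Pool.Agent.Z700.loc (3 * m) (4 * (3 * m - T) * T) =
      RM m m (-(β * β)) := by
  have hm1 : 1 ≤ m := by omega
  unfold RM
  refine Finset.sum_nbij (fun T : ℕ => 3 * (m : ℤ) - 2 * T) ?_ ?_ ?_ ?_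
  · intro T hT
    rw [mem_filter, mem_range] at hT
    obtain ⟨h1, ⟨k, hk⟩, l, hl⟩ := hT
    rw [mem_filter, mem_Ioo]
    have hM : (1 : ℤ) ≤ (m : ℤ) := by exact_mod_cast hm1
    have h1' : (T : ℤ) < 3 * (m : ℤ) := by exact_mod_cast h1
    have h2' : (0 : ℤ) < T := by
      have : 0 < T := by omega
      exact_mod_cast this
    refine ⟨⟨by nlinarith, by nlinarith⟩, by omega, ?_, ?_⟩
    · rw [diag_iff hB]
      refine ⟨2 * l, ?_⟩
      rw [hl]
      push_cast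
      ring
    · unfold dm
      rw [Int.lt_toNat]
      push_cast
      nlinarith
  · intro T _ T' _ h
    have h' : 3 * (m : ℤ) - 2 * (T : ℤ) = 3 * (m : ℤ) - 2 * (T' : ℤ) := h
    omega
  · intro b hb
    rw [mem_coe, mem_filter, mem_Ioo] at hb
    obtain ⟨-, h4, h7, hd⟩ := hb
    rw [diag_iff hB] at h7
    unfold dm at hd
    rw [Int.lt_toNat] at hd
    push_cast at hd
    have hM : (1 : ℤ) ≤ (m : ℤ) := by exact_mod_cast hm1
    have hb1 : b < 3 * (m : ℤ) := by nlinarith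
    have hb2 : -(3 * (m : ℤ)) < b := by nlinarith
    refine ⟨((3 * (m : ℤ) - b) / 2).toNat, ?_, ?_⟩
    · rw [mem_coe, mem_filter, mem_range]
      refine ⟨by omega, ?_, by omega⟩
      rw [Nat.odd_iff]
      omega
    · change 3 * (m : ℤ) - 2 * ((((3 * (m : ℤ) - b) / 2).toNat : ℕ) : ℤ) = b
      omega
  · intro T hT
    rw [mem_filter, mem_range] at hT
    obtain ⟨h1, -, -⟩ := hT
    have h2 : dm m m (3 * (m : ℤ) - 2 * T) = 4 * (3 * m - T) * T := by
      unfold dm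
      have h3 : 9 * (m : ℤ) * (m : ℤ) - (3 * (m : ℤ) - 2 * T) ^ 2 =
          ((4 * (3 * m - T) * T : ℕ) : ℤ) := by
        rw [Nat.cast_mul, Nat.cast_mul, Nat.cast_sub h1.le]
        push_cast
        ring
      rw [h3, Int.toNat_natCast]
    rw [h2]

theorem t_DIAG (hb : S_BIL) (h1 : S_C1) (h2 : S_C2) : Pool.Agent.Z705.S_DIAG := by
  intro m β hm hm1 hB
  rw [h1 m hm hm1]
  have k1 := hb m m β β ⟨hm, hm, hB, hB, fun h => absurd h (by omega),
    fun h => absurd h (by omega), Or.inr ⟨rfl, rfl⟩, Or.inl hm1⟩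
  have k2 : ∑ T ∈ (range (3 * m)).filter (fun T => Odd T ∧ 7 ∣ T), WM m T =
      RM m m (-(β * β)) := by
    rw [← diag_RM hm.2.1 hB]
    refine Finset.sum_congr rfl fun T hT => ?_
    rw [mem_filter, mem_range] at hT
    exact h2 m hm hm1 T hT.2.1 hT.2.2 hT.1
  rw [k2, sq, k1]
  ring

end Pool.Agent.Y220.ZD
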